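import Pool.Agent.Lib.MP_d2e4ca_al.Main

open Pool.Agent.Lib.MP_d2e4ca_al

namespace Pool.Agent.Results.MP_d2e4ca_al.CharTwoSL2

/-- For every `m ≥ 2` there is an infinite profinite CA-group which is not prosoluble and which
maps onto `PSL(2, 2^m)` with open kernel. -/
theorem result (m : ℕ) (hm : 2 ≤ m) :
    ∃ G : ProfiniteGrp.{0}, Infinite G ∧ IsCA G ∧ ¬ IsProsoluble G ∧
      ∃ φ : G →* Matrix.ProjectiveSpecialLinearGroup (Fin 2) (GaloisField 2 m),
        Function.Surjective φ ∧ IsOpen (φ.ker : Set G) :=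
  main m hm

end Pool.Agent.Results.MP_d2e4ca_al.CharTwoSL2
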